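import Pool.Agent.H37.CNR.Stmts

/-!
# Board `cnr`, row WRT: the wreath product `C_p ≀ SU_3(q)`
-/

set_option autoImplicit false

namespace Pool.CND

open Finset

theorem wrt_emb {p : ℕ} {k F : Type} [Field k] [IsAlgClosed k] [CharP k p] [Field F] [CharP F p]
    [Finite F] (hp : p.Prime) : Nonempty (F →+* k) := by
  have : Fact p.Prime := ⟨hp⟩
  letI : Algebra (ZMod p) F := ZMod.algebra F p
  letI : Algebra (ZMod p) k := ZMod.algebra k p
  exact ⟨(IsAlgClosed.lift (R := ZMod p) (S := F) (M := k)).toRingHom⟩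

theorem wrt_inv {k L : Type} [Field k] [Field L] [Algebra k L] {P : Place k L} {G : Type}
    [Group G] {ρ : G →* (L ≃ₐ[k] L)} {g : G} (hg : Fixes P (ρ g)) : Fixes P (ρ g⁻¹) := by
  intro x hx
  have h1 : ρ g⁻¹ x ≠ 0 := by rw [Ne, map_eq_zero]; exact hx
  have h2 := hg _ h1
  rw [← AlgEquiv.mul_apply, ← map_mul, mul_inv_cancel, map_one, AlgEquiv.one_apply] at h2
  exact h2.symm

/-- `ram 1` is normalised by `ram 0` -/
theorem wrt_conj {k L : Type} [Field k] [Field L] [Algebra k L] {P : Place k L} {G : Type}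
    [Group G] {ρ : G →* (L ≃ₐ[k] L)} {g w : G} (hg : g ∈ ram P ρ 0) (hw : w ∈ ram P ρ 1) :
    g * w * g⁻¹ ∈ ram P ρ 1 := by
  have hginv : Fixes P (ρ g⁻¹) := wrt_inv hg.1
  have happ : ∀ x, ρ (g * w * g⁻¹) x = ρ g (ρ w (ρ g⁻¹ x)) := by
    intro x
    rw [map_mul, map_mul, AlgEquiv.mul_apply, AlgEquiv.mul_apply]
  have hgg : ∀ x, ρ g (ρ g⁻¹ x) = x := by
    intro x
    rw [← AlgEquiv.mul_apply, ← map_mul, mul_inv_cancel, map_one, AlgEquiv.one_apply]
  refine ⟨?_, ?_⟩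
  · intro x hx
    have h1 : ρ g⁻¹ x ≠ 0 := by rw [Ne, map_eq_zero]; exact hx
    have h2 : ρ w (ρ g⁻¹ x) ≠ 0 := by rw [Ne, map_eq_zero]; exact h1
    rw [happ, hg.1 _ h2, hw.1 _ h1, hginv x hx]
  · intro u hu0 hu
    have h1 : ρ g⁻¹ u ≠ 0 := by rw [Ne, map_eq_zero]; exact hu0
    have h2 : P.ord (ρ g⁻¹ u) = 1 := by rw [hginv u hu0, hu]
    rcases hw.2 _ h1 h2 with h | h
    · left
      rw [happ, h, hgg]
    · by_cases h3 : ρ w (ρ g⁻¹ u) - ρ g⁻¹ u = 0
      · left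
        rw [happ, sub_eq_zero.1 h3, hgg]
      · right
        have h4 : ρ (g * w * g⁻¹) u - u = ρ g (ρ w (ρ g⁻¹ u) - ρ g⁻¹ u) := by
          rw [happ, map_sub, hgg]
        rw [h4, hg.1 _ h3]
        exact h

/-- the elements with `g 1 0 = g 2 0 = 0` -/
def wrtB {F : Type} [Field F] [Finite F] (σ : F →+* F) : Subgroup (SU3 σ) where
  carrier := {g | g.1.1 1 0 = 0 ∧ g.1.1 2 0 = 0}
  one_mem' := by
    constructor
    · change (1 : Matrix (Fin 3) (Fin 3) F) 1 0 = 0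
      simp
    · change (1 : Matrix (Fin 3) (Fin 3) F) 2 0 = 0
      simp
  mul_mem' := by
    intro a b ha hb
    have h : ∀ i, (a * b).1.1 i 0 = a.1.1 i 0 * b.1.1 0 0 + a.1.1 i 1 * b.1.1 1 0 +
        a.1.1 i 2 * b.1.1 2 0 := by
      intro i
      change (a.1.1 * b.1.1) i 0 = _
      rw [Matrix.mul_apply, Fin.sum_univ_three]
    constructor
    · rw [h, hb.1, hb.2, ha.1]; ring
    · rw [h, hb.1, hb.2, ha.2]; ring
  inv_mem' := by
    intro a ha
    have h : ∀ i, (a⁻¹ * a).1.1 i 0 = (a⁻¹).1.1 i 0 * a.1.1 0 0 + (a⁻¹).1.1 i 1 * a.1.1 1 0 +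
        (a⁻¹).1.1 i 2 * a.1.1 2 0 := by
      intro i
      change ((a⁻¹).1.1 * a.1.1) i 0 = _
      rw [Matrix.mul_apply, Fin.sum_univ_three]
    have h0 := h 0
    have h1 := h 1
    have h2 := h 2
    rw [ha.1, ha.2, mul_zero, mul_zero, add_zero, add_zero, inv_mul_cancel] at h0 h1 h2
    change (1 : Matrix (Fin 3) (Fin 3) F) 0 0 = _ at h0
    change (1 : Matrix (Fin 3) (Fin 3) F) 1 0 = _ at h1
    change (1 : Matrix (Fin 3) (Fin 3) F) 2 0 = _ at h2
    simp only [Matrix.one_apply, if_true] at h0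
    have h3 : a.1.1 0 0 ≠ 0 := by
      intro h4
      rw [h4, mul_zero] at h0
      exact one_ne_zero h0
    constructor
    · have h5 : (1 : Matrix (Fin 3) (Fin 3) F) 1 0 = 0 := by simp
      rw [h5] at h1
      rcases mul_eq_zero.1 h1.symm with h | h
      · exact h
      · exact absurd h h3
    · have h5 : (1 : Matrix (Fin 3) (Fin 3) F) 2 0 = 0 := by simp
      rw [h5] at h2
      rcases mul_eq_zero.1 h2.symm with h | h
      · exact h
      · exact absurd h h3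

theorem wrt_thm (hWRE : S_WRE) (hWLD : S_WLD) (hNCL : S_NCL) (hVB1 : S_VB1) (hUNB : S_UNB)
    (hUNE : S_UNE) (hUNK : S_UNK) (hUNF : S_UNF) : S_WRT := by
  intro p k F _ _ _ f q σ hp hp2 hchar hf hq hF hcF hσ
  have hq3 : 3 ≤ q := by
    have h1 : 3 ≤ p := by
      have := hp.two_le
      omega
    rw [hq]
    exact le_trans h1 (Nat.le_self_pow (by omega) p)
  have hFfin : Finite F := by
    apply Nat.finite_of_card_ne_zero
    rw [hF]
    positivity
  have hn : 2 ≤ q ^ 3 * (q ^ 2 - 1) := by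
    have h1 : 2 ≤ q ^ 3 := le_trans (by omega) (Nat.le_self_pow (by omega) q)
    have h2 : 1 ≤ q ^ 2 - 1 := by
      have : q ≤ q ^ 2 := Nat.le_self_pow (by omega) q
      omega
    calc 2 = 2 * 1 := rfl
      _ ≤ _ := Nat.mul_le_mul h1 h2
  obtain ⟨-, hcB, -, -⟩ := hUNB p F f q σ hp hf hq hF hσ
  have hcB' : Nat.card (wrtB σ) = q ^ 3 * (q ^ 2 - 1) := hcB
  obtain ⟨hE1, hE2⟩ := hWRE p k (SU3 σ) hp hchar
  have hgcd : Nat.gcd 2 p = 1 := by
    rw [← Nat.Coprime, Nat.coprime_primes Nat.prime_two hp]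
    exact fun h => hp2 h.symm
  rw [hgcd, one_mul] at hE1
  have hup : ∀ e ∈ Ino k (SU3 σ), e ∣ q ^ 3 * (q ^ 2 - 1) := by
    rintro e ⟨L, _, _, ρ, t, hcov, P, hPt, rfl⟩
    obtain ⟨W, I, hW, hI, hWI, hWp, -⟩ := hWLD p k L (SU3 σ) P ρ hp hchar hcov.inj
    have hWb : W ≠ ⊥ := by
      intro h
      have h1 := hNCL p k L (SU3 σ) ρ t P ⊥ hp hchar hcov hPt inferInstance (by rw [← hW, h])
      have h2 : Subsingleton (SU3 σ) := (Subgroup.subsingleton_iff).1 (subsingleton_of_bot_eq_top h1)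
      have h3 : Nat.card (wrtB σ) ≤ 1 := Finite.card_le_one_iff_subsingleton.2 inferInstance
      omega
    obtain ⟨h, hh⟩ := hVB1 p F f q σ hp hf hq hF hσ W hWb hWp
    have hle : I.map (MulAut.conj h⁻¹).toMonoidHom ≤ wrtB σ := by
      rintro _ ⟨g, hg, rfl⟩
      have hg0 : g ∈ ram P ρ 0 := by rw [← hI]; exact hg
      have h1 := hh g (fun w hw => by
        have hw1 : w ∈ ram P ρ 1 := by rw [← hW]; exact hw
        have h2 := wrt_conj hg0 hw1
        rw [← hW] at h2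
        exact h2)
      change h⁻¹ * g * h⁻¹⁻¹ ∈ wrtB σ
      rw [inv_inv]
      exact h1
    have h2 := Subgroup.card_dvd_of_le hle
    rw [hcB'] at h2
    have h3 : Nat.card (I.map (MulAut.conj h⁻¹).toMonoidHom) = Nat.card I :=
      Nat.card_congr (I.equivMapOfInjective _ (MulAut.conj h⁻¹).injective).symm.toEquiv
    rw [h3] at h2
    rw [← hI]
    exact h2
  have hlow : q ^ 3 * (q ^ 2 - 1) ∈ Ino k (SU3 σ) := by
    obtain ⟨φ⟩ := wrt_emb (k := k) (F := F) hp
    letI : Algebra F k := φ.toAlgebra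
    obtain ⟨L, iL, iA, t, X, ρ, P, hSu⟩ := hUNE p k F f q σ hp hchar hf hq hF hσ
    refine ⟨L, iL, iA, ρ, t, hUNK p k F L f q σ t X ρ P hp hchar hf hq hF hσ hSu, P, ?_, ?_⟩
    · rw [hSu.ord_t]
      have : (2 : ℤ) ≤ ((q ^ 3 * (q ^ 2 - 1) : ℕ) : ℤ) := by exact_mod_cast hn
      omega
    · have h1 : ram P ρ 0 = (wrtB σ : Set (SU3 σ)) := by
        ext g
        have h2 := hUNF p k F L f q σ t X ρ P hp hchar hf hq hF hσ hSu g
        constructor
        · intro hg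
          exact h2.1 hg.1
        · intro hg
          have h3 := h2.2 hg
          refine ⟨h3, ?_⟩
          intro u hu0 hu
          by_cases h4 : ρ g u - u = 0
          · exact Or.inl (sub_eq_zero.1 h4)
          · right
            have h5 : ρ g u ≠ 0 := by rw [Ne, map_eq_zero]; exact hu0
            have h6 := P.ge_sub (Or.inr (by rw [h3 u hu0, hu]) : P.Ge (ρ g u) 1)
              (Or.inr (by rw [hu]) : P.Ge u 1)
            have h7 := (P.ge_iff h4 1).1 h6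
            simpa using h7
      rw [h1]
      exact hcB'.symm
  apply Nat.dvd_antisymm
  · exact (hE2 _ (by omega) hup).2
  · exact hE1 _ hlow

end Pool.CND
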