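import Pool.Agent.H37.CNR.Stmts
import Pool.Agent.H2.CNZ.CUN

/-!
# Board `cnr`, row WUN: the wreath Artin-Schreier extension of a cover is a cover
-/

set_option autoImplicit false

namespace Pool.CND

open Finset

/-- the place `z ↦ P.ord (g z)` -/
def wunPl {k L : Type} [Field k] [Field L] [Algebra k L] (P : Place k L) (g : L ≃ₐ[k] L) :
    Place k L where
  ord z := P.ord (g z)
  ord_mul x y hx hy := by
    rw [map_mul]
    exact P.ord_mul _ _ (by rw [Ne, map_eq_zero]; exact hx) (by rw [Ne, map_eq_zero]; exact hy)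
  ord_add x y hx hy hxy := by
    rw [map_add]
    exact P.ord_add _ _ (by rw [Ne, map_eq_zero]; exact hx) (by rw [Ne, map_eq_zero]; exact hy)
      (by rw [← map_add, Ne, map_eq_zero]; exact hxy)
  ord_surj := by
    obtain ⟨x, hx, h1⟩ := P.ord_surj
    exact ⟨g.symm x, by rw [Ne, map_eq_zero]; exact hx, by rw [AlgEquiv.apply_symm_apply]; exact h1⟩
  ord_const c hc := by
    rw [AlgEquiv.commutes]
    exact P.ord_const c hc
  residue x hx h0 := by
    obtain ⟨c, hc⟩ := P.residue (g x) (by rw [Ne, map_eq_zero]; exact hx) h0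
    refine ⟨c, ?_⟩
    rcases hc with hc | hc
    · left
      apply g.injective
      rw [hc, AlgEquiv.commutes]
    · right
      rw [map_sub, AlgEquiv.commutes]
      exact hc

theorem wun_thm (hRSP : S_RSP) : S_WUN := by
  intro p k L L' H _ _ _ _ _ _ _ _ ρ t ℓ j y ρ' hp hchar hcov hreg hinj hY heq hρY hfix
  have : Fact p.Prime := ⟨hp⟩
  have htr : Transcendental k (j t) := by
    intro h
    exact hcov.trans ((isAlgebraic_algHom_iff j j.injective).1 h)
  have ht0 : t ≠ 0 := by
    rintro rfl
    exact hcov.trans isAlgebraic_zero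
  refine ⟨hinj, htr, ?_, ?_⟩
  · intro x
    have hadj : (IntermediateField.adjoin k {t}).map j = IntermediateField.adjoin k {j t} := by
      rw [IntermediateField.adjoin_map, Set.image_singleton]
    rw [← hadj, IntermediateField.mem_map]
    constructor
    · intro h
      obtain ⟨z, hz⟩ := hfix x (fun g _ => h g)
      refine ⟨z, ?_, hz.symm⟩
      rw [← hcov.fixed]
      intro g
      apply j.injective
      have h1 := heq ⟨1, g⟩ z
      rw [← hz, h, hz] at h1
      exact h1.symm
    · rintro ⟨z, hz, rfl⟩ g
      rw [heq, (hcov.fixed z).2 hz]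
  · intro P' hP' g hg
    obtain ⟨e, P, he, hP⟩ := hRSP k L L' j P' t hcov.trans
    have he0 : (e : ℤ) ≠ 0 := by
      have : (1 : ℤ) ≤ e := by exact_mod_cast he
      omega
    have hePos : (0 : ℤ) < e := by omega
    have hPt : 0 ≤ P.ord t := by
      have h1 := hP t ht0
      by_contra h2
      have h3 : (e : ℤ) * P.ord t < 0 := mul_neg_of_pos_of_neg hePos (by omega)
      omega
    have hfixP : Fixes P (ρ g.right) := by
      intro x hx
      have h1 : ρ g.right x ≠ 0 := by
        rw [Ne, map_eq_zero]
        exact hx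
      have h2 := hP _ h1
      rw [← heq, hg (j x) (by rw [Ne, map_eq_zero]; exact hx), ← hP x hx] at h2
      exact mul_left_cancel₀ he0 h2
    have hg1 : g.right = 1 := hcov.unram P hPt _ hfixP
    have htu : ∀ u : H, ρ u t = t := fun u =>
      (hcov.fixed t).2 (IntermediateField.mem_adjoin_simple_self k t) u
    have hw : ∀ u : H, g.left u = 1 := by
      intro u
      have hr : P'.Ge (j (ρ u ℓ)) 0 := by
        by_cases hr0 : ρ u ℓ = 0
        · exact Or.inl (by rw [hr0, map_zero])
        · have hr1 : 0 ≤ P.ord (ρ u ℓ) := by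
            rcases hreg (wunPl P (ρ u)) (by change 0 ≤ P.ord (ρ u t); rw [htu]; exact hPt) with h | h
            · exact absurd (by rw [h, map_zero]) hr0
            · exact h
          exact Or.inr (by rw [← hP _ hr0]; positivity)
      have hYint : P'.Ge (y u) 0 := cun_int P' hp.two_le hr (hY u)
      have h1 : ρ' g (y u) = y u +
          algebraMap k L' (((Multiplicative.toAdd (g.left u)).val : ℕ) : k) := by
        rw [hρY, hg1, one_mul, map_natCast]
      have h2 := cun_const P' hg hYint h1
      have h3 : p ∣ (Multiplicative.toAdd (g.left u)).val := (CharP.cast_eq_zero_iff k p _).1 h2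
      have h4 : (Multiplicative.toAdd (g.left u)) = 0 :=
        (ZMod.val_eq_zero _).1 (Nat.eq_zero_of_dvd_of_lt h3 (ZMod.val_lt _))
      exact toAdd_eq_zero.1 h4
    exact RegularWreathProduct.ext (funext hw) hg1

end Pool.CND
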